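import Pool.Agent.H29.FX.Targets

/-!
Row STP of tfx_modules (MP_7ecdd4_nt): the step of the recursion.
-/

set_option autoImplicit false

open Finset MvPolynomial

namespace Pool.Agent.H26.TFX

open Pool.Agent.H29.FX

theorem STP_card {α β : Type} [DecidableEq β] (S : Finset α) (Φ : α → β) (T : Finset β)
    (hT : ∀ a ∈ S, Φ a ∈ T) (b : ℝ)
    (hb : ∀ t ∈ T, ((S.filter (fun a => Φ a = t)).card : ℝ) ≤ b) :
    (S.card : ℝ) ≤ T.card * b := by
  rw [Finset.card_eq_sum_card_fiberwise hT]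
  push_cast
  refine (Finset.sum_le_sum hb).trans ?_
  rw [Finset.sum_const, nsmul_eq_mul]

theorem STP_coord {n : ℕ} (z : Fin n → ℤ) (X : ℝ) (hz : ∀ v, 1 ≤ z v)
    (hX : ∏ v, (z v : ℝ) ≤ X) (v : Fin n) : (z v : ℝ) ≤ X := by
  refine le_trans ?_ hX
  have h1 : z v ∣ ∏ w, z w := Finset.dvd_prod_of_mem _ (mem_univ v)
  have h2 : 0 < ∏ w, z w := Finset.prod_pos fun w _ => by
    have := hz w
    omega
  have h3 := Int.le_of_dvd h2 h1
  have h4 : ((z v : ℤ) : ℝ) ≤ ((∏ w, z w : ℤ) : ℝ) := by exact_mod_cast h3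
  push_cast at h4
  exact h4

/-- the residue -/
theorem STP_res (a : ℤ) (p : ℕ) (hp : 0 < p) : (a % (p : ℤ)).toNat < p ∧
    (p : ℤ) ∣ a - (((a % (p : ℤ)).toNat : ℕ) : ℤ) := by
  have hp' : (0 : ℤ) < p := by exact_mod_cast hp
  have h1 := Int.emod_nonneg a hp'.ne'
  have h2 := Int.emod_lt_of_pos a hp'
  constructor
  · omega
  · rw [Int.toNat_of_nonneg h1]
    exact Int.dvd_self_sub_emod

theorem STP_ev (δ : ℝ) (hδ : 0 < δ) (A B C : ℝ) : ∃ X₀ : ℝ, 2 ≤ X₀ ∧ ∀ X : ℝ, X₀ ≤ X →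
    A ≤ X ^ δ ∧ B * Real.log X ≤ X ^ δ ∧ C ≤ X := by
  have h1 := (tendsto_rpow_atTop hδ).eventually_ge_atTop A
  have h2 := (isLittleO_log_rpow_atTop hδ).def (show (0 : ℝ) < 1 / (|B| + 1) by positivity)
  have h3 := (h1.and h2).and (Filter.eventually_ge_atTop (max C 1))
  obtain ⟨X₀, h⟩ := Filter.eventually_atTop.1 h3
  refine ⟨max X₀ 2, le_max_right _ _, fun X hX => ?_⟩
  obtain ⟨⟨h4, h5⟩, h6⟩ := h X ((le_max_left _ _).trans hX)
  have hX1 : 1 ≤ X := (le_max_right _ _).trans h6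
  refine ⟨h4, ?_, (le_max_left _ _).trans h6⟩
  have hlog : 0 ≤ Real.log X := Real.log_nonneg hX1
  have hp : 0 ≤ X ^ δ := Real.rpow_nonneg (by linarith) _
  rw [Real.norm_of_nonneg hlog, Real.norm_of_nonneg hp] at h5
  have hB : 0 < |B| + 1 := by positivity
  rw [one_div, inv_mul_eq_div, le_div_iff₀ hB] at h5
  have h7 : B ≤ |B| + 1 := (le_abs_self B).trans (by linarith)
  nlinarith

theorem STP_pow (X δ : ℝ) (hX : 0 ≤ X) (k : ℕ) : X ^ ((k : ℝ) * δ) = (X ^ δ) ^ k := by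
  rw [mul_comm, Real.rpow_mul hX, Real.rpow_natCast]

/-- the number of the primes and residue classes -/
theorem STP_cnt (W : ℝ) (hW : 2 ≤ W) (n : ℕ) :
    (((range (⌊W ^ 2⌋₊ + 1) ×ˢ Fintype.piFinset (fun _ : Fin n => range ⌊W ^ 2⌋₊)).card : ℕ) : ℝ) ≤
      W ^ (2 * n + 3) := by
  rw [card_product, card_range, Fintype.card_piFinset]
  simp only [card_range, prod_const, card_univ, Fintype.card_fin]
  push_cast
  have h1 : ((⌊W ^ 2⌋₊ : ℕ) : ℝ) ≤ W ^ 2 := Nat.floor_le (by positivity)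
  have h2 : (((⌊W ^ 2⌋₊ : ℕ) : ℝ)) ^ n ≤ (W ^ 2) ^ n := pow_le_pow_left₀ (Nat.cast_nonneg _) h1 n
  have h3 : ((⌊W ^ 2⌋₊ : ℕ) : ℝ) + 1 ≤ W * W ^ 2 := by nlinarith [sq_nonneg W]
  have h4 : W ^ (2 * n + 3) = (W * W ^ 2) * (W ^ 2) ^ n := by ring
  rw [h4]
  exact mul_le_mul h3 h2 (by positivity) (by positivity)

/-- the bound for one class, for `m` remaining variables -/
def STP_CL (n m B : ℕ) (δ : ℝ) : Prop :=
    ∃ M c Y₀ : ℝ, 0 < M ∧ 0 < c ∧ 2 ≤ Y₀ ∧ ∀ (Y M' H : ℝ) (pt : Fin n → Fin 3)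
      (e : Fin n → ℕ) (u : Fin 3 → ℤ) (L : Tw n) (g : Pl n) (j : Fin n) (p : ℕ)
      (x₀ : Fin n → ℤ) (S : Finset (Fin n → ℤ)), Y₀ ≤ Y → M ≤ M' →
      H ≤ Real.exp (Y ^ c) → (∀ v, 1 ≤ e v ∧ (e v : ℝ) ≤ Y) → (∀ a, u a ≠ 0) → Gd L →
      (TI L).card = m → (∀ q ∈ L, Cx Y B q.1) → j ∈ TI L → p.Prime → Y ^ δ ≤ p →
      (∀ z ∈ S, Sol pt e u Y M' H z ∧ On L z ∧ eval z g = 0 ∧
        ¬ (p : ℤ) ∣ eval z (TJ L) ∧ ¬ (p : ℤ) ∣ eval z (TD L j g) ∧
        ∀ v, (p : ℤ) ∣ z v - x₀ v) →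
      Set.InjOn (fun z a => eval z (en pt e a)) (S : Set (Fin n → ℤ)) →
      (S.card : ℝ) ≤ Y ^ (δ / 2) * Y ^ ((m : ℝ) * (2 * n + 4) * δ)

theorem STP_gen (hCVR : T_CVR) (hNUM : T_NUM) (hFLT : T_FLT) :
    ∀ (n m B : ℕ) (δ : ℝ), 0 < δ → δ ≤ 1 → STP_CL n m B δ → RecS n δ m B := by
  classical
  intro n m B δ hδ hδ1 hcl
  obtain ⟨M₁, c₁, Y₁, hM₁, hc₁, hY₁, hA⟩ := hcl
  set c : ℝ := min c₁ (δ / (8 * (n + 1))) with hc
  have hn0 : (0 : ℝ) < 8 * (n + 1) := by positivity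
  have hc0 : 0 < c := lt_min hc₁ (div_pos hδ hn0)
  have hcδ : c ≤ δ / (8 * (n + 1)) := min_le_right _ _
  obtain ⟨M₂, Y₂, hM₂, hY₂, hV⟩ := hCVR n B δ c hδ hδ1 hc0 hcδ
  obtain ⟨Y₃, hY₃, hN⟩ := hNUM n δ c hδ hδ1 hc0 hcδ
  obtain ⟨X₀, hX₀, hX⟩ := STP_ev δ hδ 2 0 (max Y₁ (max Y₂ Y₃))
  refine ⟨max M₁ M₂, c, X₀, lt_max_of_lt_left hM₁, hc0, hX₀, ?_⟩
  intro X H pt e u L S hXX hH he hu hG hcard hCx hS hinj
  obtain ⟨hW2, -, hXY⟩ := hX X hXX
  have hX2 : 2 ≤ X := hX₀.trans hXX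
  have hXY₁ : Y₁ ≤ X := (le_max_left _ _).trans hXY
  have hXY₂ : Y₂ ≤ X := ((le_max_left _ _).trans (le_max_right _ _)).trans hXY
  have hXY₃ : Y₃ ≤ X := ((le_max_right _ _).trans (le_max_right _ _)).trans hXY
  obtain ⟨hN1, hN2, hN3⟩ := hN X hXY₃
  set s : ℕ := ⌊X ^ (2 * c)⌋₊ with hs
  set W : ℝ := X ^ δ with hWdef
  have hW0 : 0 ≤ W := by linarith
  have hH1 : H ≤ Real.exp (X ^ c₁) := by
    refine hH.trans (Real.exp_le_exp.2 ?_)
    exact Real.rpow_le_rpow_of_exponent_le (by linarith) (min_le_left _ _)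
  have hex : ∀ z : Fin n → ℤ, ∃ (p : ℕ)
      (q : Option (Option (Fin n × Fin 3 × Fin 3 × (Fin n → Fin s)) × Fin n)), z ∈ S →
      p.Prime ∧ W ≤ p ∧ (p : ℝ) ≤ W ^ 2 ∧ ¬ (p : ℤ) ∣ eval z (TJ L) ∧
      (q = none → Flat pt e L s z) ∧
      (∀ o j, q = some (o, j) → j ∈ TI L ∧ eval z (gt pt e u L o) = 0 ∧
          ¬ (p : ℤ) ∣ eval z (TD L j (gt pt e u L o))) := by
    intro z
    by_cases hz : z ∈ S
    · obtain ⟨hz1, hz2, hz3⟩ := hS z hz
      obtain ⟨p, hp1, hp2, hp3, hp4, hp5⟩ := hV X (max M₁ M₂) H pt e u L z hXY₂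
        (le_max_right _ _) hH he hG hCx hz1 hz3
      have hp3' : (p : ℝ) ≤ W ^ 2 := by
        rw [hWdef, ← STP_pow X δ (by linarith) 2]
        push_cast
        exact hp3
      rcases hp5 with hfl | ⟨o, j, hj1, hj2, hj3⟩
      · exact ⟨p, none, fun _ => ⟨hp1, hp2, hp3', hp4, fun _ => hfl, by simp⟩⟩
      · refine ⟨p, some (o, j), fun _ => ⟨hp1, hp2, hp3', hp4, by simp, ?_⟩⟩
        intro o' j' h
        simp only [Option.some.injEq, Prod.mk.injEq] at h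
        obtain ⟨rfl, rfl⟩ := h
        exact ⟨hj1, hj2, hj3⟩
    · exact ⟨0, none, fun h => absurd h hz⟩
  choose p q hpq using hex
  set b : ℝ := X ^ (δ / 2) * X ^ ((m : ℝ) * (2 * n + 4) * δ) with hb
  have hb1 : 1 ≤ b := by
    have h1 : 1 ≤ X ^ (δ / 2) := Real.one_le_rpow (by linarith) (by positivity)
    have h2 : 1 ≤ X ^ ((m : ℝ) * (2 * n + 4) * δ) :=
      Real.one_le_rpow (by linarith) (by positivity)
    rw [hb]
    nlinarith
  have hmain := STP_card S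
    (fun z => (((p z, fun v => (z v % (p z : ℤ)).toNat), q z) :
      (ℕ × (Fin n → ℕ)) × Option (Option (Fin n × Fin 3 × Fin 3 × (Fin n → Fin s)) × Fin n)))
    ((range (⌊W ^ 2⌋₊ + 1) ×ˢ Fintype.piFinset (fun _ : Fin n => range ⌊W ^ 2⌋₊)) ×ˢ
      (univ : Finset (Option (Option (Fin n × Fin 3 × Fin 3 × (Fin n → Fin s)) × Fin n))))
    (by
      intro z hz
      obtain ⟨h1, h2, h3, h4, -⟩ := hpq z hz
      have h5 : p z ≤ ⌊W ^ 2⌋₊ := Nat.le_floor h3
      rw [mem_product, mem_product, Fintype.mem_piFinset]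
      refine ⟨⟨?_, fun v => ?_⟩, mem_univ _⟩
      · rw [mem_range]
        exact Nat.lt_succ_of_le h5
      · rw [mem_range]
        exact lt_of_lt_of_le (STP_res (z v) (p z) h1.pos).1 h5) b
    (by
      rintro ⟨⟨p₀, r₀⟩, q₀⟩ _
      set F := S.filter (fun z => (((p z, fun v => (z v % (p z : ℤ)).toNat), q z) :
        (ℕ × (Fin n → ℕ)) × Option (Option (Fin n × Fin 3 × Fin 3 × (Fin n → Fin s)) × Fin n)) =
          ((p₀, r₀), q₀)) with hF
      have hFm : ∀ z ∈ F, z ∈ S ∧ p z = p₀ ∧ (∀ v, (z v % (p₀ : ℤ)).toNat = r₀ v) ∧ q z = q₀ := by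
        intro z hz
        rw [hF, mem_filter] at hz
        obtain ⟨hz1, hz2⟩ := hz
        simp only [Prod.mk.injEq] at hz2
        obtain ⟨⟨a1, a2⟩, a3⟩ := hz2
        refine ⟨hz1, a1, fun v => ?_, a3⟩
        have := congrFun a2 v
        rw [← a1]
        exact this
      rcases q₀ with _ | ⟨o, j⟩
      · -- flat points
        have hone : F.card ≤ 1 := by
          rw [Finset.card_le_one]
          intro x hx y hy
          obtain ⟨hxS, hxp, hxr, hxq⟩ := hFm x hx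
          obtain ⟨hyS, hyp, hyr, hyq⟩ := hFm y hy
          obtain ⟨h1, h2, h3, h4, h5, -⟩ := hpq x hxS
          rw [hxp] at h1 h2 h3 h4
          obtain ⟨hx1, hx2, hx3⟩ := hS x hxS
          obtain ⟨hy1, hy2, hy3⟩ := hS y hyS
          have hsp : s ≤ p₀ := by
            have : (s : ℝ) ≤ (p₀ : ℝ) := hN1.trans h2
            exact_mod_cast this
          have hdvd : ∀ v, (p₀ : ℤ) ∣ y v - x v := by
            intro v
            have a1 := (STP_res (x v) p₀ h1.pos).2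
            have a2 := (STP_res (y v) p₀ h1.pos).2
            rw [hxr v] at a1
            rw [hyr v] at a2
            have := dvd_sub a2 a1
            rwa [sub_sub_sub_cancel_right] at this
          have hcop : ∀ z : Fin n → ℤ, Sol pt e u X (max M₁ M₂) H z → ∀ a a', a ≠ a' →
              IsCoprime (eval z (en pt e a)) (eval z (en pt e a')) := by
            intro z hz a a' haa
            exact ((hz.cop a a' haa).of_mul_left_right).of_mul_right_right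
          have hle : ∀ z : Fin n → ℤ, Sol pt e u X (max M₁ M₂) H z → ∀ a,
              ((eval z (en pt e a) : ℤ) : ℝ) ≤ Real.exp (X ^ c) := by
            intro z hz a
            refine le_trans ?_ ((hz.sml a).trans hH)
            push_cast
            rw [abs_mul]
            have hu1 : 1 ≤ |((u a : ℤ) : ℝ)| := by
              have : 1 ≤ |u a| := Int.one_le_abs (hu a)
              exact_mod_cast this
            have h6 := le_abs_self (((eval z (en pt e a) : ℤ) : ℝ))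
            have h7 := abs_nonneg (((eval z (en pt e a) : ℤ) : ℝ))
            nlinarith
          have hps : Real.exp (X ^ c) ^ 2 < (p₀ : ℝ) ^ s :=
            hN2.trans_le (pow_le_pow_left₀ hW0 h2 s)
          have hfl := hFLT n p₀ s pt e L (Real.exp (X ^ c)) x y h1 hsp hG (fun v => (he v).1)
            hx2 hy2 hdvd h4 (h5 hxq) (fun v => ⟨hx1.pos v, hy1.pos v⟩)
            (fun a a' haa => ⟨hcop x hx1 a a' haa, hcop y hy1 a a' haa⟩)
            (fun a => ⟨hle x hx1 a, hle y hy1 a⟩) hps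
          exact hinj hxS hyS (funext hfl)
        have : (F.card : ℝ) ≤ 1 := by exact_mod_cast hone
        exact this.trans hb1
      · -- points with an additional equation
        rcases F.eq_empty_or_nonempty with h0 | ⟨z₀, hz₀⟩
        · rw [h0]
          simp only [card_empty, Nat.cast_zero]
          linarith
        · obtain ⟨hzS, hzp, hzr, hzq⟩ := hFm z₀ hz₀
          obtain ⟨h1, h2, h3, h4, -, h5⟩ := hpq z₀ hzS
          rw [hzp] at h1 h2 h3 h4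
          obtain ⟨hj1, -, -⟩ := h5 o j hzq
          refine hA X (max M₁ M₂) H pt e u L (gt pt e u L o) j p₀ (fun v => ((r₀ v : ℕ) : ℤ)) F
            hXY₁ (le_max_left _ _) hH1 he hu hG hcard hCx hj1 h1 h2 ?_ ?_
          · intro z hz
            obtain ⟨hzS', hzp', hzr', hzq'⟩ := hFm z hz
            obtain ⟨-, -, -, h4', -, h5'⟩ := hpq z hzS'
            rw [hzp'] at h4' h5'
            obtain ⟨-, hj2, hj3⟩ := h5' o j hzq'
            obtain ⟨a1, a2, a3⟩ := hS z hzS'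
            refine ⟨a1, a2, hj2, h4', hj3, fun v => ?_⟩
            have a4 := (STP_res (z v) p₀ h1.pos).2
            rw [hzr' v] at a4
            exact a4
          · intro x hx y hy hxy
            exact hinj (hFm x hx).1 (hFm y hy).1 hxy)
  refine hmain.trans ?_
  rw [card_product]
  push_cast
  have hK : ((univ : Finset (Option (Option (Fin n × Fin 3 × Fin 3 × (Fin n → Fin s)) ×
      Fin n))).card : ℝ) ≤ X ^ (δ / 2) := by
    refine le_trans (le_of_eq ?_) hN3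
    rw [card_univ, Fintype.card_option, Fintype.card_prod, Fintype.card_option,
      Fintype.card_prod, Fintype.card_prod, Fintype.card_prod, Fintype.card_fun]
    simp only [Fintype.card_fin]
    push_cast
    ring
  have hC := STP_cnt W hW2 n
  have hb0 : 0 ≤ b := by linarith
  have hX0 : 0 ≤ X ^ (δ / 2) := Real.rpow_nonneg (by linarith) _
  calc _ ≤ W ^ (2 * n + 3) * X ^ (δ / 2) * b := by
        refine mul_le_mul_of_nonneg_right ?_ hb0
        exact mul_le_mul hC hK (Nat.cast_nonneg _) (by positivity)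
    _ = X ^ (((m : ℝ) + 1) * (2 * n + 4) * δ) := by
      rw [hb, hWdef, ← STP_pow X δ (by linarith)]
      have hXpos : 0 < X := by linarith
      rw [mul_assoc, ← mul_assoc (X ^ (δ / 2)), ← Real.rpow_add hXpos, ← Real.rpow_add hXpos,
        ← Real.rpow_add hXpos]
      congr 1
      push_cast
      ring

theorem STP_zero (n B : ℕ) (δ : ℝ) : STP_CL n 0 B δ := by
  refine ⟨1, 1, 2, one_pos, one_pos, le_refl _, ?_⟩
  intro Y M' H pt e u L g j p x₀ S _ _ _ _ _ _ hcard _ hj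
  rw [Finset.card_eq_zero.1 hcard] at hj
  exact absurd hj (Finset.notMem_empty j)

theorem STP_succ (hCLA : T_CLA) (n m B : ℕ) (δ : ℝ) (hδ : 0 < δ) (hδ1 : δ ≤ 1)
    (hrec : ∀ B', RecS n δ m B') : STP_CL n (m + 1) B δ := by
  obtain ⟨M, c, Y₀, hM, hc, hY, h⟩ := hCLA n m B δ hδ hδ1 hrec
  refine ⟨M, c, Y₀, hM, hc, hY, ?_⟩
  have e : ((m + 1 : ℕ) : ℝ) = (m : ℝ) + 1 := by push_cast; ring
  rw [e]
  exact h

theorem pf_STP (hCVR : T_CVR) (hCLA : T_CLA) (hNUM : T_NUM) (hFLT : T_FLT) : T_STP :=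
  ⟨fun n B δ hδ hδ1 => STP_gen hCVR hNUM hFLT n 0 B δ hδ hδ1 (STP_zero n B δ),
    fun n m B δ hδ hδ1 hrec => STP_gen hCVR hNUM hFLT n (m + 1) B δ hδ hδ1
      (STP_succ hCLA n m B δ hδ hδ1 hrec)⟩

end Pool.Agent.H26.TFX
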