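import Pool.Agent.H26.TFX.STP

/-!
Row FNA of tfx_modules (MP_7ecdd4_nt): products of `k` powers.
-/

set_option autoImplicit false

open Finset MvPolynomial

namespace Pool.Agent.H26.TFX

open Pool.Agent.H29.FX
open Pool.Agent.H38.AE.Statement

/-- the block of a variable -/
def FNA_pt (k : ℕ) (v : Fin (3 * k)) : Fin 3 := (finProdFinEquiv.symm v).1

theorem FNA_filter {k : ℕ} {R : Type} [CommMonoid R] (f : Fin 3 → Fin k → R) (a : Fin 3) :
    ∏ v ∈ univ.filter (fun v : Fin (3 * k) => FNA_pt k v = a),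
      f (finProdFinEquiv.symm v).1 (finProdFinEquiv.symm v).2 = ∏ j, f a j := by
  classical
  rw [Finset.prod_filter]
  have h1 := Equiv.prod_comp (finProdFinEquiv (m := 3) (n := k)).symm
    (fun w : Fin 3 × Fin k => if w.1 = a then f w.1 w.2 else 1)
  have h2 : ∏ v : Fin (3 * k), (if FNA_pt k v = a then
      f (finProdFinEquiv.symm v).1 (finProdFinEquiv.symm v).2 else 1) =
      ∏ w : Fin 3 × Fin k, (if w.1 = a then f w.1 w.2 else 1) := h1
  rw [h2, Fintype.prod_prod_type, Finset.prod_eq_single a]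
  · simp
  · intro b _ hb
    simp [hb]
  · intro h
    exact absurd (mem_univ a) h

theorem FNA_all {k : ℕ} {R : Type} [CommMonoid R] (f : Fin 3 → Fin k → R) :
    ∏ v : Fin (3 * k), f (finProdFinEquiv.symm v).1 (finProdFinEquiv.symm v).2 =
      ∏ i, ∏ j, f i j := by
  have h1 := Equiv.prod_comp (finProdFinEquiv (m := 3) (n := k)).symm
    (fun w : Fin 3 × Fin k => f w.1 w.2)
  rw [Fintype.prod_prod_type] at h1
  exact h1

theorem FNA_fin {k : ℕ} (u : Fin 3 → ℤ) (Y T : ℝ) (x : Fin 3 → ℤ) (hx : Admissible x)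
    (hP : Powers k u Y x) (hT : 1 ≤ T) (hH : ∀ i, |(x i : ℝ)| ≤ Real.exp T) :
    ∃ (z : Fin (3 * k) → ℤ) (e : Fin (3 * k) → ℕ), (∀ v, 1 ≤ z v) ∧
      (∀ v, 1 ≤ e v ∧ (e v : ℝ) ≤ 2 * T) ∧
      (∀ a, x a = u a * eval z (en (FNA_pt k) e a)) ∧ ∏ v, (z v : ℝ) ≤ Y := by
  classical
  obtain ⟨z, e, hze, hxz, hY⟩ := hP
  set e₀ : Fin 3 → Fin k → ℕ := fun i j => if z i j = 1 then 1 else e i j with he₀
  have hpow : ∀ i j, (z i j : ℤ) ^ e₀ i j = (z i j : ℤ) ^ e i j := by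
    intro i j
    rw [he₀]
    simp only
    split_ifs with h
    · rw [h]
      simp
    · rfl
  have hb : ∀ i j, 1 ≤ e₀ i j ∧ (e₀ i j : ℝ) ≤ 2 * T := by
    intro i j
    rw [he₀]
    simp only
    split_ifs with h
    · refine ⟨le_refl _, ?_⟩
      push_cast
      linarith
    · refine ⟨(hze i j).2, ?_⟩
      have hz2 : 2 ≤ z i j := by
        have := (hze i j).1
        omega
      have h1 : (z i j : ℤ) ^ e i j ∣ x i := by
        rw [hxz i]
        exact (Finset.dvd_prod_of_mem (fun j => (z i j : ℤ) ^ e i j) (mem_univ j)).mul_left _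
      have h2 : (z i j : ℤ) ^ e i j ≤ |x i| :=
        Int.le_of_dvd (abs_pos.2 (hx.1 i)) ((dvd_abs _ _).2 h1)
      have h3 : (2 : ℝ) ^ e i j ≤ Real.exp T := by
        have h4 : ((2 : ℤ) ^ e i j) ≤ |x i| := by
          refine le_trans ?_ h2
          exact pow_le_pow_left₀ (by norm_num) (by exact_mod_cast hz2) _
        have h5 : ((((2 : ℤ) ^ e i j : ℤ)) : ℝ) ≤ ((|x i| : ℤ) : ℝ) := by exact_mod_cast h4
        push_cast at h5
        exact h5.trans (hH i)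
      have h6 := Real.log_le_log (by positivity) h3
      rw [Real.log_exp, Real.log_pow] at h6
      have h7 := Real.log_two_gt_d9
      have h8 : (0 : ℝ) ≤ (e i j : ℝ) := Nat.cast_nonneg _
      nlinarith
  refine ⟨fun v => (z (finProdFinEquiv.symm v).1 (finProdFinEquiv.symm v).2 : ℤ),
    fun v => e₀ (finProdFinEquiv.symm v).1 (finProdFinEquiv.symm v).2, ?_, ?_, ?_, ?_⟩
  · intro v
    have := (hze (finProdFinEquiv.symm v).1 (finProdFinEquiv.symm v).2).1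
    show (1 : ℤ) ≤ ((z (finProdFinEquiv.symm v).1 (finProdFinEquiv.symm v).2 : ℕ) : ℤ)
    exact_mod_cast this
  · intro v
    exact hb _ _
  · intro a
    rw [hxz a]
    congr 1
    unfold en
    rw [map_prod]
    simp only [map_pow, eval_X]
    rw [FNA_filter (fun i j => (z i j : ℤ) ^ e₀ i j) a]
    exact Finset.prod_congr rfl fun j _ => (hpow a j).symm
  · have h1 := FNA_all (fun i j => (z i j : ℝ))
    push_cast
    rw [h1]
    exact hY

/-- the box -/
theorem FNA_box (H : ℝ) : Set.Finite {x : Fin 3 → ℤ | ∀ i, |(x i : ℝ)| ≤ H} := by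
  refine (Set.finite_Icc (fun _ : Fin 3 => -⌈H⌉) (fun _ : Fin 3 => ⌈H⌉)).subset ?_
  intro x hx
  have hx' : ∀ i, |(x i : ℝ)| ≤ H := hx
  rw [Set.mem_Icc, Pi.le_def, Pi.le_def]
  constructor
  · intro i
    have h1 := (abs_le.1 (hx' i)).1
    have h2 := Int.le_ceil H
    have h3 : ((-⌈H⌉ : ℤ) : ℝ) ≤ (x i : ℝ) := by
      push_cast
      linarith
    exact_mod_cast h3
  · intro i
    have h1 := (abs_le.1 (hx' i)).2
    have h2 := Int.le_ceil H
    have h3 : ((x i : ℤ) : ℝ) ≤ ((⌈H⌉ : ℤ) : ℝ) := h1.trans h2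
    exact_mod_cast h3

theorem FNA_rec (hSTP : T_STP) (n : ℕ) (δ : ℝ) (hδ : 0 < δ) (hδ1 : δ ≤ 1) :
    ∀ m B, RecS n δ m B := by
  intro m
  induction m with
  | zero => exact fun B => hSTP.1 n B δ hδ hδ1
  | succ m ih => exact fun B => hSTP.2 n m B δ hδ hδ1 ih

/-- the fibre of one exponent vector -/
theorem FNA_fibre {n : ℕ} {δ M c₁ X₀ : ℝ}
    (hR : ∀ (X H : ℝ) (pt : Fin n → Fin 3) (e : Fin n → ℕ)
      (u : Fin 3 → ℤ) (L : Tw n) (S : Finset (Fin n → ℤ)), X₀ ≤ X → H ≤ Real.exp (X ^ c₁) →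
      (∀ v, 1 ≤ e v ∧ (e v : ℝ) ≤ X) → (∀ a, u a ≠ 0) → Gd L → (TI L).card = n →
      (∀ q ∈ L, Cx X 0 q.1) → (∀ z ∈ S, Sol pt e u X M H z ∧ On L z ∧ eval z (TJ L) ≠ 0) →
      Set.InjOn (fun z a => eval z (en pt e a)) (S : Set (Fin n → ℤ)) →
      (S.card : ℝ) ≤ X ^ (((n : ℝ) + 1) * (2 * n + 4) * δ))
    (Y H : ℝ) (u : Fin 3 → ℤ) (pt : Fin n → Fin 3) (e : Fin n → ℕ) (F : Finset (Fin 3 → ℤ))
    (z : (Fin 3 → ℤ) → Fin n → ℤ) (hY : X₀ ≤ Y) (hY1 : 1 ≤ Y) (hH : H ≤ Real.exp (Y ^ c₁))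
    (he : ∀ v, 1 ≤ e v ∧ (e v : ℝ) ≤ Y)
    (hF : ∀ x ∈ F, Admissible x ∧ (∃ i, Y ^ M < |(x i : ℝ)|) ∧ (∀ i, |(x i : ℝ)| ≤ H) ∧
      (∀ v, 1 ≤ z x v) ∧ (∀ a, x a = u a * eval (z x) (en pt e a)) ∧ ∏ v, (z x v : ℝ) ≤ Y) :
    (F.card : ℝ) ≤ Y ^ (((n : ℝ) + 1) * (2 * n + 4) * δ) := by
  classical
  rcases F.eq_empty_or_nonempty with h0 | ⟨x₀, hx₀⟩
  · rw [h0, card_empty, Nat.cast_zero]
    exact Real.rpow_nonneg (by linarith) _
  · have hu : ∀ a, u a ≠ 0 := by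
      intro a ha
      obtain ⟨h1, -, -, -, h2, -⟩ := hF x₀ hx₀
      apply h1.1 a
      rw [h2 a, ha, zero_mul]
    have hinj : Set.InjOn z (F : Set (Fin 3 → ℤ)) := by
      intro x hx y hy hxy
      obtain ⟨-, -, -, -, h2, -⟩ := hF x hx
      obtain ⟨-, -, -, -, h3, -⟩ := hF y hy
      funext a
      rw [h2 a, h3 a, hxy]
    have hcard : (F.image z).card = F.card := Finset.card_image_of_injOn hinj
    rw [← hcard]
    refine hR Y H pt e u [] (F.image z) hY hH he hu trivial ?_ ?_ ?_ ?_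
    · show (univ : Finset (Fin n)).card = n
      rw [card_univ, Fintype.card_fin]
    · intro q hq
      exact absurd hq (List.not_mem_nil)
    · intro w hw
      obtain ⟨x, hx, rfl⟩ := mem_image.1 hw
      obtain ⟨h1, h2, h3, h4, h5, h6⟩ := hF x hx
      refine ⟨⟨h4, h6, ?_, ?_, ?_, ?_⟩, ?_, ?_⟩
      · unfold eqn
        rw [map_sum]
        simp only [map_mul, eval_C]
        have h7 : ∑ a, u a * eval (z x) (en pt e a) = ∑ a, x a :=
          Finset.sum_congr rfl fun a _ => (h5 a).symm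
        rw [h7]
        exact h1.2.2
      · intro a b hab
        rw [← h5 a, ← h5 b]
        exact h1.2.1 a b hab
      · obtain ⟨i, hi⟩ := h2
        refine ⟨i, ?_⟩
        rw [← h5 i]
        exact hi
      · intro a
        rw [← h5 a]
        exact h3 a
      · intro q hq
        exact absurd hq (List.not_mem_nil)
      · show eval (z x) (1 : Pl n) ≠ 0
        rw [map_one]
        exact one_ne_zero
    · intro w hw w' hw' hww
      obtain ⟨x, hx, rfl⟩ := mem_image.1 (mem_coe.1 hw)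
      obtain ⟨y, hy, rfl⟩ := mem_image.1 (mem_coe.1 hw')
      obtain ⟨-, -, -, -, h2, -⟩ := hF x hx
      obtain ⟨-, -, -, -, h3, -⟩ := hF y hy
      have : x = y := by
        funext a
        rw [h2 a, h3 a]
        congr 1
        exact congrFun hww a
      rw [this]

theorem pf_FNA (hSTP : T_STP) : T_FNA := by
  classical
  intro k η hη
  set n : ℕ := 3 * k with hn
  set δ : ℝ := min 1 (η / (2 * (n + 1) * (2 * n + 4))) with hδdef
  have hD : (0 : ℝ) < 2 * (n + 1) * (2 * n + 4) := by positivity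
  have hδ : 0 < δ := lt_min one_pos (div_pos hη hD)
  have hδ1 : δ ≤ 1 := min_le_left _ _
  have hδη : ((n : ℝ) + 1) * (2 * n + 4) * δ ≤ η / 2 := by
    have h1 : δ ≤ η / (2 * (n + 1) * (2 * n + 4)) := min_le_right _ _
    rw [le_div_iff₀ hD] at h1
    linarith
  obtain ⟨M, c₁, X₀, hM, hc₁, hX₀, hR⟩ := FNA_rec hSTP n δ hδ hδ1 n 0
  set c : ℝ := min c₁ (min (1 / 4) (η / (8 * (n + 1)))) with hc
  have hE : (0 : ℝ) < 8 * (n + 1) := by positivity
  have hc0 : 0 < c := lt_min hc₁ (lt_min (by norm_num) (div_pos hη hE))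
  have hcc₁ : c ≤ c₁ := min_le_left _ _
  have hc4 : c ≤ 1 / 4 := (min_le_right _ _).trans (min_le_left _ _)
  have hcη : (n : ℝ) * c ≤ η / 8 := by
    have h1 : c ≤ η / (8 * (n + 1)) := (min_le_right _ _).trans (min_le_right _ _)
    rw [le_div_iff₀ hE] at h1
    have h2 : (0 : ℝ) ≤ n := Nat.cast_nonneg n
    nlinarith
  set Y₁ : ℝ := max X₀ 4 with hY₁
  set C₀ : ℝ := ((FNA_box (Real.exp (Y₁ ^ c))).toFinset.card : ℝ) with hC₀
  have hfin : ∀ (Y : ℝ) (u : Fin 3 → ℤ), (OfPowers k u M Y (Real.exp (Y ^ c))).Finite := by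
    intro Y u
    refine (FNA_box (Real.exp (Y ^ c))).subset ?_
    intro x hx
    exact hx.2.2.2
  refine ⟨M, c, 3 ^ n + C₀, hM, hc0, by positivity, ?_⟩
  intro Y u hY
  refine ⟨hfin Y u, ?_⟩
  rw [Set.ncard_eq_toFinset_card _ (hfin Y u)]
  set T := (hfin Y u).toFinset with hT
  have hTm : ∀ x ∈ T, Admissible x ∧ Powers k u Y x ∧ (∃ i, Y ^ M < |(x i : ℝ)|) ∧
      ∀ i, |(x i : ℝ)| ≤ Real.exp (Y ^ c) := by
    intro x hx
    rw [hT, Set.Finite.mem_toFinset] at hx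
    exact hx
  have hYη : 1 ≤ Y ^ η := Real.one_le_rpow (by linarith) hη.le
  have hC₀0 : 0 ≤ C₀ := by positivity
  rcases lt_or_ge Y Y₁ with hlt | hge
  · have h1 : T ⊆ (FNA_box (Real.exp (Y₁ ^ c))).toFinset := by
      intro x hx
      rw [Set.Finite.mem_toFinset]
      obtain ⟨-, -, -, h2⟩ := hTm x hx
      intro i
      refine (h2 i).trans (Real.exp_le_exp.2 ?_)
      exact Real.rpow_le_rpow (by linarith) hlt.le hc0.le
    have h2 : (T.card : ℝ) ≤ C₀ := by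
      rw [hC₀]
      exact_mod_cast Finset.card_le_card h1
    have h3 : (0 : ℝ) ≤ 3 ^ n := by positivity
    nlinarith
  · have hYX : X₀ ≤ Y := (le_max_left _ _).trans hge
    have hY4 : 4 ≤ Y := (le_max_right _ _).trans hge
    have hY1 : 1 ≤ Y := by linarith
    have hYc : 1 ≤ Y ^ c := Real.one_le_rpow hY1 hc0.le
    have hYc4 : 2 * Y ^ c ≤ Y := by
      have h1 : Y ^ c ≤ Y ^ (1 / 4 : ℝ) := Real.rpow_le_rpow_of_exponent_le hY1 hc4
      have h2 : Y ^ (1 / 4 : ℝ) ≤ Y ^ (1 / 2 : ℝ) :=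
        Real.rpow_le_rpow_of_exponent_le hY1 (by norm_num)
      have h3 : 2 * Y ^ (1 / 2 : ℝ) ≤ Y := by
        rw [← Real.sqrt_eq_rpow]
        have h4 : 2 ≤ Real.sqrt Y := by
          rw [show (2 : ℝ) = Real.sqrt 4 by
            rw [show (4 : ℝ) = 2 ^ 2 by norm_num, Real.sqrt_sq (by norm_num)]]
          exact Real.sqrt_le_sqrt hY4
        have h5 := Real.mul_self_sqrt (show (0 : ℝ) ≤ Y by linarith)
        nlinarith
      linarith
    have hHle : Real.exp (Y ^ c) ≤ Real.exp (Y ^ c₁) :=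
      Real.exp_le_exp.2 (Real.rpow_le_rpow_of_exponent_le hY1 hcc₁)
    have hex : ∀ x : Fin 3 → ℤ, ∃ (z : Fin (3 * k) → ℤ) (e : Fin (3 * k) → ℕ), x ∈ T →
        (∀ v, 1 ≤ z v) ∧ (∀ v, 1 ≤ e v ∧ (e v : ℝ) ≤ 2 * Y ^ c) ∧
        (∀ a, x a = u a * eval z (en (FNA_pt k) e a)) ∧ ∏ v, (z v : ℝ) ≤ Y := by
      intro x
      by_cases hx : x ∈ T
      · obtain ⟨h1, h2, -, h3⟩ := hTm x hx
        obtain ⟨z, e, h4⟩ := FNA_fin u Y (Y ^ c) x h1 h2 hYc h3
        exact ⟨z, e, fun _ => h4⟩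
      · exact ⟨fun _ => 0, fun _ => 0, fun h => absurd h hx⟩
    choose z e hze using hex
    have hmain := STP_card T e (Fintype.piFinset (fun _ : Fin n => range (⌊2 * Y ^ c⌋₊ + 1)))
      (by
        intro x hx
        rw [Fintype.mem_piFinset]
        intro v
        rw [mem_range]
        exact Nat.lt_succ_of_le (Nat.le_floor ((hze x hx).2.1 v).2))
      (Y ^ (((n : ℝ) + 1) * (2 * n + 4) * δ))
      (by
        intro e₀ _
        rcases (T.filter (fun x => e x = e₀)).eq_empty_or_nonempty with h0 | ⟨x₀, hx₀⟩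
        · rw [h0, card_empty, Nat.cast_zero]
          exact Real.rpow_nonneg (by linarith) _
        · rw [mem_filter] at hx₀
          have he₀ : ∀ v, 1 ≤ e₀ v ∧ (e₀ v : ℝ) ≤ Y := by
            intro v
            have h1 := (hze x₀ hx₀.1).2.1 v
            rw [hx₀.2] at h1
            exact ⟨h1.1, h1.2.trans hYc4⟩
          refine FNA_fibre hR Y (Real.exp (Y ^ c)) u (FNA_pt k) e₀ _ z hYX hY1 hHle he₀ ?_
          intro x hx
          rw [mem_filter] at hx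
          obtain ⟨h1, h2, h3, h4⟩ := hTm x hx.1
          obtain ⟨h5, h6, h7, h8⟩ := hze x hx.1
          rw [hx.2] at h7
          exact ⟨h1, h3, h4, h5, h7, h8⟩)
    refine hmain.trans ?_
    rw [Fintype.card_piFinset]
    simp only [card_range, prod_const, card_univ, Fintype.card_fin]
    push_cast
    have h1 : ((⌊2 * Y ^ c⌋₊ : ℕ) : ℝ) + 1 ≤ 3 * Y ^ c := by
      have := Nat.floor_le (show (0 : ℝ) ≤ 2 * Y ^ c by positivity)
      linarith
    have h2 : (((⌊2 * Y ^ c⌋₊ : ℕ) : ℝ) + 1) ^ n ≤ 3 ^ n * Y ^ (η / 8) := by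
      refine (pow_le_pow_left₀ (by positivity) h1 n).trans ?_
      rw [mul_pow]
      refine mul_le_mul_of_nonneg_left ?_ (by positivity)
      rw [← STP_pow Y c (by linarith) n]
      exact Real.rpow_le_rpow_of_exponent_le hY1 hcη
    have h3 : Y ^ (((n : ℝ) + 1) * (2 * n + 4) * δ) ≤ Y ^ (η / 2) :=
      Real.rpow_le_rpow_of_exponent_le hY1 hδη
    have h4 : Y ^ (η / 8) * Y ^ (η / 2) ≤ Y ^ η := by
      rw [← Real.rpow_add (by linarith)]
      exact Real.rpow_le_rpow_of_exponent_le hY1 (by linarith)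
    calc _ ≤ 3 ^ n * Y ^ (η / 8) * Y ^ (η / 2) :=
          mul_le_mul h2 h3 (Real.rpow_nonneg (by linarith) _) (by positivity)
      _ = 3 ^ n * (Y ^ (η / 8) * Y ^ (η / 2)) := by ring
      _ ≤ 3 ^ n * Y ^ η := mul_le_mul_of_nonneg_left h4 (by positivity)
      _ ≤ (3 ^ n + C₀) * Y ^ η := by
        have : 0 ≤ C₀ * Y ^ η := mul_nonneg hC₀0 (by linarith)
        linarith

end Pool.Agent.H26.TFX
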